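import Mathlib

/-!
# Locally compact Scott spaces with countable separation or countable domination are sober

Let `P` be a dcpo whose Scott topology is locally compact. We show that its Scott topology is sober if each irreducible
closed set `C` satisfies one of

* `CountablySeparated C`: countably many open sets separate the points of `C` (this holds if the Scott topology has a
  countable base, if `P` is countable, or if `P` has a Scott continuous order embedding into the power set of `ℕ`);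
* `CountablyDominated C`: each open set `U` meeting `C` has a countable subset `F ⊆ U ∩ C` with `V ∩ C ⊆ ↑F` for some open
  `V` meeting `C` (this holds if all antichains of `P` are countable).

Idea for the first case. If `C` has no largest element, there are compact sets `Q 0 ⊇ U 0 ⊇ Q 1 ⊇ U 1 ⊇ ...` with `U n` open
and meeting `C`, and `C ∩ ⋂ Q n = ∅`. The relation `(n', m') ≺ (n, m)` iff `n < n'` and `m ≤ m'` between the minimal points
of the sets `Q n ∩ C` is well founded, because `P` is a dcpo. By `below_inf` (a property of all dcpos: a sequence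
in a set way below the open set `U` has infinitely many members above one point of `U`) the ranks of `≺` exceed all countable
ordinals. By compactness the minimal points can be coded by sequences so that the argument of Kunen and Martin
gives an infinite descending sequence of `≺`, a contradiction.
-/

set_option autoImplicit false

universe u

namespace Pool.Agent.Results.MP_dd23d5_gt.CountableCase

open Set Topology

section Order
variable {P : Type u} [PartialOrder P]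

lemma pigeon {D : Set P} (hD : DirectedOn (· ≤ ·) D) (hne : D.Nonempty) (s : ℕ → P) (T : Finset ℕ)
    (h : ∀ d ∈ D, ∃ k ∈ T, d ≤ s k) : ∃ k ∈ T, ∀ d ∈ D, d ≤ s k := by
  by_contra hcon
  push Not at hcon
  have key : ∀ T' : Finset ℕ, T' ⊆ T → ∃ u ∈ D, ∀ k ∈ T', ¬ u ≤ s k := by
    intro T'
    induction T' using Finset.induction_on with
    | empty =>
      intro _
      obtain ⟨u, hu⟩ := hne
      exact ⟨u, hu, by simp⟩
    | insert a T'' ha ih =>
      intro hsub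
      obtain ⟨u, hu, hu'⟩ := ih (fun x hx => hsub (Finset.mem_insert_of_mem hx))
      obtain ⟨v, hv, hv'⟩ := hcon a (hsub (Finset.mem_insert_self _ _))
      obtain ⟨w, hw, huw, hvw⟩ := hD u hu v hv
      refine ⟨w, hw, ?_⟩
      intro k hk
      rcases Finset.mem_insert.1 hk with rfl | hk
      · exact fun h => hv' (hvw.trans h)
      · exact fun h => hu' k hk (huw.trans h)
  obtain ⟨u, hu, hu'⟩ := key T (Finset.Subset.refl _)
  obtain ⟨k, hk, hk'⟩ := h u hu
  exact hu' k hk hk'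

end Order

section Scott
variable {P : Type u} [PartialOrder P] [TopologicalSpace P] [Topology.IsScott P Set.univ]

/-- the points of `U` that are below no `s k`, `k ≥ j`, form an open set if every point of `U` is below
finitely many `s k` only -/
lemma isOpen_W {U : Set P} (hU : IsOpen U) (s : ℕ → P) (j : ℕ)
    (hfin : ∀ d ∈ U, ∃ j₀, ∀ k, j₀ ≤ k → ¬ d ≤ s k) : IsOpen {d | d ∈ U ∧ ∀ k, j ≤ k → ¬ d ≤ s k} := by
  rw [Topology.IsScott.isOpen_iff_isUpperSet_and_dirSupInaccOn (D := univ)] at hU ⊢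
  constructor
  · intro a b hab ha
    exact ⟨hU.1 hab ha.1, fun k hk h => ha.2 k hk (hab.trans h)⟩
  · intro D _ hne hdir e he heW
    obtain ⟨d₀, hd₀D, hd₀U⟩ := hU.2 (mem_univ D) hne hdir he heW.1
    by_contra hcon
    obtain ⟨j₀, hj₀⟩ := hfin d₀ hd₀U
    have h1 : ∀ d ∈ D ∩ Ici d₀, ∃ k ∈ Finset.Ico j j₀, d ≤ s k := by
      intro d hd
      have hdU : d ∈ U := hU.1 hd.2 hd₀U
      by_contra hc
      push Not at hc
      apply hcon
      refine ⟨d, hd.1, hdU, fun k hk hdk => ?_⟩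
      rcases lt_or_ge k j₀ with h | h
      · exact hc k (Finset.mem_Ico.2 ⟨hk, h⟩) hdk
      · exact hj₀ k h (le_trans hd.2 hdk)
    have hdir' : DirectedOn (· ≤ ·) (D ∩ Ici d₀) := by
      intro a ha b hb
      obtain ⟨c, hc, hac, hbc⟩ := hdir a ha.1 b hb.1
      exact ⟨c, ⟨hc, le_trans ha.2 hac⟩, hac, hbc⟩
    obtain ⟨k, hk, hk'⟩ := pigeon hdir' ⟨d₀, hd₀D, le_refl _⟩ s _ h1
    rw [Finset.mem_Ico] at hk
    apply heW.2 k hk.1
    apply he.2
    intro d hd
    obtain ⟨c, hc, hdc, hd₀c⟩ := hdir d hd d₀ hd₀D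
    exact hdc.trans (hk' c ⟨hc, hd₀c⟩)

/-- every increasing sequence of open sets covering `U` has a member containing `V` -/
def SeqBelow (V U : Set P) : Prop :=
  ∀ W : ℕ → Set P, (∀ n, IsOpen (W n)) → Monotone W → U ⊆ ⋃ n, W n → ∃ n, V ⊆ W n

/-- a sequence in a set `V` way below `U` has infinitely many members above one point of `U` -/
lemma below_inf {V U : Set P} (hU : IsOpen U) (hVU : SeqBelow V U) (s : ℕ → P) (hs : ∀ k, s k ∈ V) :
    ∃ d ∈ U, ∀ j, ∃ k, j ≤ k ∧ d ≤ s k := by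
  by_contra hcon
  push Not at hcon
  obtain ⟨n, hn⟩ := hVU (fun j => {d | d ∈ U ∧ ∀ k, j ≤ k → ¬ d ≤ s k})
    (fun j => isOpen_W hU s j hcon) (by
      intro a b hab d hd
      exact ⟨hd.1, fun k hk => hd.2 k (hab.trans hk)⟩) (by
      intro d hd
      obtain ⟨j, hj⟩ := hcon d hd
      exact mem_iUnion.2 ⟨j, hd, hj⟩)
  exact (hn (hs n)).2 n (le_refl _) (le_refl _)

omit [PartialOrder P] [Topology.IsScott P Set.univ] in
lemma seqBelow_of_isCompact {V U : Set P} (hV : IsCompact V) (hVU : V ⊆ U) : SeqBelow V U := by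
  intro W hW hm hUW
  exact hV.elim_directed_cover W hW (hVU.trans hUW) hm.directed_le

lemma exists_min {K : Set P} (hK : IsCompact K) {d : P} (hd : d ∈ K) :
    ∃ m ∈ K, m ≤ d ∧ ∀ q ∈ K, q ≤ m → m ≤ q := by
  obtain ⟨m, hm1, hm2⟩ := zorn_le_nonempty₀ (α := Pᵒᵈ) (OrderDual.ofDual ⁻¹' K) (by
    intro c hc hchain y hy
    have h1 : (K ∩ ⋂ i : c, Iic (OrderDual.ofDual (i : Pᵒᵈ))).Nonempty := by
      apply hK.inter_iInter_nonempty
      · intro i
        exact isClosed_Iic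
      · intro t
        have hdir : Directed (· ≥ ·) (fun i : c => OrderDual.ofDual (i : Pᵒᵈ)) := by
          intro i j
          rcases hchain.total i.2 j.2 with h | h
          · exact ⟨j, h, le_refl _⟩
          · exact ⟨i, le_refl _, h⟩
        have : Nonempty c := ⟨⟨y, hy⟩⟩
        obtain ⟨i, hi⟩ := hdir.finset_le t
        refine ⟨OrderDual.ofDual (i : Pᵒᵈ), hc i.2, ?_⟩
        simp only [mem_iInter, mem_Iic]
        intro j hj
        exact hi j hj
    obtain ⟨x, hxK, hx⟩ := h1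
    refine ⟨OrderDual.toDual x, hxK, ?_⟩
    intro z hz
    exact (mem_iInter.1 hx ⟨z, hz⟩)) (OrderDual.toDual d) hd
  refine ⟨OrderDual.ofDual m, hm2.1, hm1, ?_⟩
  intro q hq hqm
  exact hm2.2 (y := OrderDual.toDual q) hq hqm

/-- a shrinking sequence of compact sets with nonempty interior in `C` and with empty intersection in `C` -/
structure Levels (C : Set P) (U Q : ℕ → Set P) : Prop where
  openU : ∀ n, IsOpen (U n)
  compQ : ∀ n, IsCompact (Q n)
  UQ : ∀ n, U n ⊆ Q n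
  QU : ∀ n, Q (n + 1) ⊆ U n
  meets : ∀ n, (U n ∩ C).Nonempty
  empt : ∀ x ∈ C, ∃ n, x ∉ Q n

omit [Topology.IsScott P Set.univ] in
lemma exists_levels [LocallyCompactSpace P] {C : Set P} (hC : IsIrreducible C) (B : ℕ → Set P)
    (hB : ∀ n, IsOpen (B n)) (hsep : ∀ x ∈ C, ∀ y ∈ C, ¬ x ≤ y → ∃ n, x ∈ B n ∧ y ∉ B n)
    (htop : ∀ a ∈ C, ∃ c ∈ C, ¬ c ≤ a) : ∃ U Q : ℕ → Set P, Levels C U Q := by
  have step : ∀ (n : ℕ) (O : {O : Set P // IsOpen O ∧ (O ∩ C).Nonempty}),
      ∃ O' : {O : Set P // IsOpen O ∧ (O ∩ C).Nonempty}, ∃ Q : Set P, IsCompact Q ∧ O'.1 ⊆ Q ∧ Q ⊆ O.1 ∧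
        ((B n ∩ C).Nonempty → Q ⊆ B n) := by
    rintro n ⟨O, hO, hOC⟩
    have key : ∀ O₁ : Set P, IsOpen O₁ → (O₁ ∩ C).Nonempty → ∃ O' : {O : Set P // IsOpen O ∧ (O ∩ C).Nonempty},
        ∃ Q : Set P, IsCompact Q ∧ O'.1 ⊆ Q ∧ Q ⊆ O₁ := by
      intro O₁ hO₁ ⟨x, hx, hxC⟩
      obtain ⟨K, hK, hKO, hKc⟩ := LocallyCompactSpace.local_compact_nhds x O₁ (hO₁.mem_nhds hx)
      exact ⟨⟨interior K, isOpen_interior, ⟨x, mem_interior_iff_mem_nhds.2 hK, hxC⟩⟩, K, hKc, interior_subset, hKO⟩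
    by_cases hBC : (B n ∩ C).Nonempty
    · have h1 : ((O ∩ B n) ∩ C).Nonempty := by
        obtain ⟨x, hx1, hx2⟩ := hOC
        obtain ⟨y, hy1, hy2⟩ := hBC
        obtain ⟨z, hz1, hz2⟩ := hC.2 O (B n) hO (hB n) ⟨x, hx2, hx1⟩ ⟨y, hy2, hy1⟩
        exact ⟨z, hz2, hz1⟩
      obtain ⟨O', Q, h2, h3, h4⟩ := key (O ∩ B n) (hO.inter (hB n)) h1
      exact ⟨O', Q, h2, h3, h4.trans inter_subset_left, fun _ => h4.trans inter_subset_right⟩
    · obtain ⟨O', Q, h2, h3, h4⟩ := key O hO hOC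
      exact ⟨O', Q, h2, h3, h4, fun h => absurd h hBC⟩
  choose f Qf hf1 hf2 hf3 hf4 using step
  have huniv : IsOpen (univ : Set P) ∧ (univ ∩ C).Nonempty := ⟨isOpen_univ, by rw [univ_inter]; exact hC.1⟩
  let O' : ℕ → {O : Set P // IsOpen O ∧ (O ∩ C).Nonempty} := fun n => Nat.rec ⟨univ, huniv⟩ (fun n O => f n O) n
  have hO' : ∀ n, O' (n + 1) = f n (O' n) := fun n => rfl
  refine ⟨fun n => (O' (n + 1)).1, fun n => Qf n (O' n), ?_⟩
  refine ⟨fun n => (O' (n + 1)).2.1, fun n => hf1 n _, fun n => ?_, fun n => hf3 (n + 1) _,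
    fun n => (O' (n + 1)).2.2, ?_⟩
  · rw [hO']
    exact hf2 n _
  · intro x hx
    obtain ⟨c, hc, hcx⟩ := htop x hx
    obtain ⟨n, hn1, hn2⟩ := hsep c hc x hx hcx
    exact ⟨n, fun h => hn2 (hf4 n _ ⟨c, hn1, hc⟩ h)⟩

namespace Levels
variable {C : Set P} {U Q : ℕ → Set P}

omit [PartialOrder P] [Topology.IsScott P Set.univ] in
lemma anti (hL : Levels C U Q) : Antitone Q :=
  antitone_nat_of_succ_le (fun n => (hL.QU n).trans (hL.UQ n))

/-- there are no infinite ascending chains through the levels -/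
lemma no_chain (hL : Levels C U Q) (hC : IsClosed C)
    (hP : ∀ d : Set P, d.Nonempty → DirectedOn (· ≤ ·) d → ∃ x, IsLUB d x) (n : ℕ → ℕ) (q : ℕ → P)
    (h1 : ∀ i, q i ∈ Q (n i) ∩ C) (h2 : ∀ i, n i < n (i + 1)) (h3 : ∀ i, q i ≤ q (i + 1)) : False := by
  have hq : Monotone q := monotone_nat_of_le_succ h3
  have hn : StrictMono n := strictMono_nat_of_lt_succ h2
  obtain ⟨e, he⟩ := hP (range q) (range_nonempty q) (by
    rintro _ ⟨i, rfl⟩ _ ⟨j, rfl⟩
    exact ⟨q (max i j), ⟨_, rfl⟩, hq (le_max_left _ _), hq (le_max_right _ _)⟩)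
  have heC : e ∈ C := by
    apply Topology.IsScott.dirSupClosed_of_isClosed hC (d := range q) _ (range_nonempty q) _ he
    · rintro _ ⟨i, rfl⟩
      exact (h1 i).2
    · rintro _ ⟨i, rfl⟩ _ ⟨j, rfl⟩
      exact ⟨q (max i j), ⟨_, rfl⟩, hq (le_max_left _ _), hq (le_max_right _ _)⟩
  obtain ⟨k, hk⟩ := hL.empt e heC
  apply hk
  apply hL.UQ
  apply Topology.IsScott.isUpperSet_of_isOpen (D := univ) (hL.openU k) (he.1 ⟨k + 1, rfl⟩)
  apply hL.QU
  exact hL.anti (hn.le_apply (x := k + 1)) (h1 (k + 1)).1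

end Levels

/-- the minimal points of the levels -/
def Lvl (C : Set P) (Q : ℕ → Set P) (y : ℕ × P) : Prop :=
  y.2 ∈ Q y.1 ∩ C ∧ ∀ q ∈ Q y.1 ∩ C, q ≤ y.2 → y.2 ≤ q

/-- going up in the order and in the level -/
def Rel (C : Set P) (Q : ℕ → Set P) (y' y : ℕ × P) : Prop :=
  Lvl C Q y' ∧ Lvl C Q y ∧ y.1 < y'.1 ∧ y.2 ≤ y'.2

lemma Levels.wf {C : Set P} {U Q : ℕ → Set P} (hL : Levels C U Q) (hC : IsClosed C)
    (hP : ∀ d : Set P, d.Nonempty → DirectedOn (· ≤ ·) d → ∃ x, IsLUB d x) : IsWellFounded (ℕ × P) (Rel C Q) := by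
  constructor
  rw [wellFounded_iff_isEmpty_descending_chain]
  constructor
  rintro ⟨f, hf⟩
  exact hL.no_chain hC hP (fun i => (f i).1) (fun i => (f i).2) (fun i => (hf i).2.1.1) (fun i => (hf i).2.2.1)
    (fun i => (hf i).2.2.2)

open Ordinal in
lemma countable_Iio {α : Ordinal.{u}} (hα : α < ω₁) : (Iio α).Countable := by
  rw [← Cardinal.le_aleph0_iff_set_countable, Cardinal.mk_Iio_ordinal, Cardinal.lift_le_aleph0]
  rw [← Cardinal.ord_aleph, Cardinal.lt_ord] at hα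
  have h1 : (Cardinal.aleph 1 : Cardinal.{u}) = Order.succ Cardinal.aleph0 := Cardinal.succ_aleph0.symm
  rw [h1, Order.lt_succ_iff] at hα
  exact hα

open Ordinal in
/-- the ranks of the minimal points of each level exceed all countable ordinals -/
lemma Levels.rank_big {C : Set P} {U Q : ℕ → Set P} (hL : Levels C U Q) (hC : IsClosed C)
    [IsWellFounded (ℕ × P) (Rel C Q)] :
    ∀ α : Ordinal.{u}, α < ω₁ → ∀ i, ∃ m, Lvl C Q (i, m) ∧ α ≤ IsWellFounded.rank (Rel C Q) (i, m) := by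
  intro α
  induction α using WellFoundedLT.induction with
  | ind α ih =>
    intro hα i
    have hmin : ∀ k, ∀ d ∈ Q k ∩ C, ∃ m, Lvl C Q (k, m) ∧ m ≤ d := by
      intro k d hd
      obtain ⟨m, hm1, hm2, hm3⟩ := exists_min ((hL.compQ k).inter_right hC) hd
      exact ⟨m, ⟨hm1, hm3⟩, hm2⟩
    rcases eq_or_ne α 0 with h0 | h0
    · obtain ⟨x, hx1, hx2⟩ := hL.meets i
      obtain ⟨m, hm, _⟩ := hmin i x ⟨hL.UQ i hx1, hx2⟩
      exact ⟨m, hm, by rw [h0]; exact zero_le⟩
    · have hpos : 0 < α := pos_iff_ne_zero.2 h0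
      obtain ⟨e, he⟩ := (countable_Iio hα).exists_eq_range ⟨0, hpos⟩
      have heα : ∀ k, e k < α := by
        intro k
        have : e k ∈ Iio α := by rw [he]; exact ⟨k, rfl⟩
        exact this
      have hβ : ∀ k, (Finset.range (k + 1)).sup e < α := by
        intro k
        rw [Finset.sup_lt_iff (by rw [Ordinal.bot_eq_zero]; exact hpos)]
        intro l _
        exact heα l
      have hs : ∀ k, ∃ m, Lvl C Q (k, m) ∧ (Finset.range (k + 1)).sup e ≤ IsWellFounded.rank (Rel C Q) (k, m) :=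
        fun k => ih _ (hβ k) ((hβ k).trans hα) k
      choose s hs1 hs2 using hs
      obtain ⟨d, hdU, hd⟩ := below_inf (hL.openU i) (seqBelow_of_isCompact (hL.compQ (i + 1)) (hL.QU i))
        (fun k => s (k + i + 1)) (fun k => hL.anti (by omega) (hs1 (k + i + 1)).1.1)
      have hdC : d ∈ C := by
        obtain ⟨k, _, hk⟩ := hd 0
        exact Topology.IsScott.isLowerSet_of_isClosed hC hk (hs1 _).1.2
      obtain ⟨m, hm, hmd⟩ := hmin i d ⟨hL.UQ i hdU, hdC⟩
      refine ⟨m, hm, ?_⟩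
      apply le_of_forall_lt
      intro γ hγ
      have hγ' : γ ∈ Iio α := hγ
      rw [he] at hγ'
      obtain ⟨j, rfl⟩ := hγ'
      obtain ⟨k, hk1, hk2⟩ := hd j
      have h1 : e j ≤ (Finset.range (k + i + 1 + 1)).sup e :=
        Finset.le_sup (f := e) (Finset.mem_range.2 (by omega))
      have h2 : IsWellFounded.rank (Rel C Q) (k + i + 1, s (k + i + 1)) < IsWellFounded.rank (Rel C Q) (i, m) := by
        apply IsWellFounded.rank_lt_of_rel
        refine ⟨hs1 _, hm, ?_, hmd.trans hk2⟩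
        change i < k + i + 1
        omega
      exact (h1.trans (hs2 _)).trans_lt h2

end Scott

open Ordinal in
/-- a well-founded relation with ranks exceeding all countable ordinals has, at each finite precision of a countable
code, approximate infinite descending sequences (the argument of Kunen and Martin) -/
theorem approx {Y : Type u} {Γ : Type} [Countable Γ] (R : Y → Y → Prop) [IsWellFounded Y R] (code : Y → ℕ → Γ)
    (h : ∀ α : Ordinal.{u}, α < ω₁ → ∃ y, α ≤ IsWellFounded.rank R y) :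
    ∃ F : ℕ → ℕ → Γ, ∀ r, ∃ t : ℕ → Y, (∀ i, i < r → R (t (i + 1)) (t i)) ∧
      ∀ i, i ≤ r → ∀ k, k < r → code (t i) k = F i k := by
  classical
  have h0 : (0 : Ordinal.{u}) < ω₁ := lt_of_le_of_lt (zero_le) omega0_lt_omega_one
  obtain ⟨y₀, _⟩ := h 0 h0
  obtain ⟨c₀, hc₀⟩ : ∃ c₀ : Γ, c₀ = code y₀ 0 := ⟨_, rfl⟩
  -- large nodes
  let Large : ℕ → (ℕ → ℕ → Γ) → Prop := fun r F => ∀ α : Ordinal.{u}, α < ω₁ → ∃ t : ℕ → Y,
    (∀ i, i < r → R (t (i + 1)) (t i)) ∧ (∀ i, i ≤ r → ∀ k, k < r → code (t i) k = F i k) ∧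
      α ≤ IsWellFounded.rank R (t r)
  have step : ∀ r F, Large r F → ∃ F', (∀ i, i ≤ r → ∀ k, k < r → F' i k = F i k) ∧ Large (r + 1) F' := by
    intro r F hF
    by_contra hcon
    push Not at hcon
    let ext : (Fin (r + 2) → Fin (r + 1) → Γ) → ℕ → ℕ → Γ := fun v i k =>
      if h : i < r + 2 ∧ k < r + 1 then v ⟨i, h.1⟩ ⟨k, h.2⟩ else c₀
    have hg : ∀ v : Fin (r + 2) → Fin (r + 1) → Γ, ∃ α : Ordinal.{u}, α < ω₁ ∧
        ((∀ i, i ≤ r → ∀ k, k < r → ext v i k = F i k) → ∀ t : ℕ → Y, (∀ i, i < r + 1 → R (t (i + 1)) (t i)) →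
          (∀ i, i ≤ r + 1 → ∀ k, k < r + 1 → code (t i) k = ext v i k) → IsWellFounded.rank R (t (r + 1)) < α) := by
      intro v
      by_cases hv : ∀ i, i ≤ r → ∀ k, k < r → ext v i k = F i k
      · have h1 := hcon (ext v) hv
        simp only [Large] at h1
        push Not at h1
        obtain ⟨α, hα, h2⟩ := h1
        exact ⟨α, hα, fun _ t ht1 ht2 => h2 t ht1 ht2⟩
      · exact ⟨0, h0, fun h => absurd h hv⟩
    choose g hg1 hg2 using hg
    have hsup : ⨆ v, g v < ω₁ := Ordinal.iSup_lt_omega_one hg1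
    have hlim : Order.succ (⨆ v, g v) < ω₁ := by
      have h1 : Order.IsSuccLimit (ω₁ : Ordinal.{u}) := by
        rw [← Cardinal.ord_aleph]
        exact Cardinal.isSuccLimit_ord (Cardinal.aleph0_le_aleph 1)
      exact h1.succ_lt hsup
    obtain ⟨t, ht1, ht2, ht3⟩ := hF _ hlim
    have h4 : (⨆ v, g v) < IsWellFounded.rank R (t r) := Order.succ_le_iff.1 ht3
    rw [IsWellFounded.rank_eq, Ordinal.lt_iSup_iff] at h4
    obtain ⟨⟨b, hb⟩, h5⟩ := h4
    rw [Order.lt_succ_iff] at h5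
    let t' : ℕ → Y := fun i => if i ≤ r then t i else b
    have ht'1 : ∀ i, i ≤ r → t' i = t i := fun i hi => if_pos hi
    have ht'2 : t' (r + 1) = b := if_neg (by omega)
    let v : Fin (r + 2) → Fin (r + 1) → Γ := fun i k => code (t' i) k
    have hext : ∀ i, i ≤ r + 1 → ∀ k, k < r + 1 → ext v i k = code (t' i) k := by
      intro i hi k hk
      simp only [ext]
      rw [dif_pos ⟨by omega, hk⟩]
    have h6 := hg2 v (by
      intro i hi k hk
      rw [hext i (by omega) k (by omega), ht'1 i hi]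
      exact ht2 i hi k hk) t' (by
      intro i hi
      rcases Nat.lt_or_ge i r with h | h
      · rw [ht'1 i h.le, ht'1 (i + 1) (by omega)]
        exact ht1 i h
      · have : i = r := by omega
        subst this
        rw [ht'1 i (le_refl _), ht'2]
        exact hb) (by
      intro i hi k hk
      exact (hext i hi k hk).symm)
    rw [ht'2] at h6
    have h7 : g v ≤ ⨆ v, g v := Ordinal.le_iSup g v
    exact absurd (h7.trans h5) (not_le.2 h6)
  have base : Large 0 (fun _ _ => c₀) := by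
    intro α hα
    obtain ⟨y, hy⟩ := h α hα
    exact ⟨fun _ => y, fun i hi => absurd hi (by omega), fun i hi k hk => absurd hk (by omega), hy⟩
  choose! nx hnx1 hnx2 using step
  let G : ℕ → ℕ → ℕ → Γ := fun r => Nat.rec (fun _ _ => c₀) (fun r F => nx r F) r
  have hG0 : G 0 = fun _ _ => c₀ := rfl
  have hG1 : ∀ r, G (r + 1) = nx r (G r) := fun r => rfl
  have hGL : ∀ r, Large r (G r) := by
    intro r
    induction r with
    | zero => exact base
    | succ r ih =>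
      rw [hG1]
      exact hnx2 r (G r) ih
  have hGst : ∀ r, ∀ i, i ≤ r → ∀ k, k < r → G (r + 1) i k = G r i k := by
    intro r i hi k hk
    rw [hG1]
    exact hnx1 r (G r) (hGL r) i hi k hk
  have hGm : ∀ r r', r ≤ r' → ∀ i, i ≤ r → ∀ k, k < r → G r' i k = G r i k := by
    intro r r' hr
    induction r', hr using Nat.le_induction with
    | base => intro i _ k _; rfl
    | succ r' hr ih =>
      intro i hi k hk
      rw [hGst r' i (by omega) k (by omega)]
      exact ih i hi k hk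
  refine ⟨fun i k => G (max i k + 1) i k, ?_⟩
  intro r
  obtain ⟨t, ht1, ht2, _⟩ := hGL r 0 h0
  refine ⟨t, ht1, ?_⟩
  intro i hi k hk
  rw [ht2 i hi k hk]
  change G r i k = G (max i k + 1) i k
  rcases le_total r (max i k + 1) with h1 | h1
  · exact (hGm r _ h1 i hi k hk).symm
  · exact hGm _ r h1 i (by omega) k (by omega)

section Main
variable {P : Type u} [PartialOrder P] [TopologicalSpace P] [Topology.IsScott P Set.univ]

/-- Countably many open sets separate the points of `C`: whenever `x ≰ y` in `C`, one of them contains `x`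
but not `y`. -/
def CountablySeparated (C : Set P) : Prop :=
  ∃ B : ℕ → Set P, (∀ n, IsOpen (B n)) ∧ ∀ x ∈ C, ∀ y ∈ C, ¬ x ≤ y → ∃ n, x ∈ B n ∧ y ∉ B n

/-- Each open set `U` meeting `C` contains a countable subset `F` of `C` such that some open set `V` meeting `C`
satisfies `V ∩ C ⊆ ↑F`. -/
def CountablyDominated (C : Set P) : Prop :=
  ∀ U : Set P, IsOpen U → (U ∩ C).Nonempty → ∃ F : Set P, F ⊆ U ∩ C ∧ F.Countable ∧
    ∃ V : Set P, IsOpen V ∧ (V ∩ C).Nonempty ∧ ∀ x ∈ V ∩ C, ∃ f ∈ F, f ≤ x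

/-- an irreducible closed set whose points are separated by countably many open sets has a largest element -/
theorem top_of_separated [LocallyCompactSpace P]
    (hP : ∀ d : Set P, d.Nonempty → DirectedOn (· ≤ ·) d → ∃ x, IsLUB d x)
    {C : Set P} (hC : IsIrreducible C) (hCc : IsClosed C) (hsep : CountablySeparated C) :
    ∃ a ∈ C, ∀ c ∈ C, c ≤ a := by
  by_contra htop
  push Not at htop
  obtain ⟨B, hB, hsep⟩ := hsep
  obtain ⟨U, Q, hL⟩ := exists_levels hC B hB hsep htop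
  have hwf := hL.wf hCc hP
  -- the precision needed to see that a minimal point is minimal
  have hz : ∀ (y : ℕ × P) (k : ℕ), ∃ N : ℕ, Lvl C Q y → y.2 ∈ B k →
      ∀ q ∈ Q y.1 ∩ C, q ∈ B k ∨ ∃ j, j < N ∧ q ∈ B j ∧ y.2 ∉ B j := by
    intro y k
    by_cases hy : Lvl C Q y ∧ y.2 ∈ B k
    · obtain ⟨hy, hk⟩ := hy
      obtain ⟨N, hN⟩ := ((hL.compQ y.1).inter_right hCc).elim_directed_cover
        (fun N : ℕ => B k ∪ ⋃ j ∈ {j : ℕ | j < N ∧ y.2 ∉ B j}, B j)
        (fun N => (hB k).union (isOpen_biUnion (fun j _ => hB j))) (by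
          intro q hq
          rw [mem_iUnion]
          by_cases hqk : q ∈ B k
          · exact ⟨0, Or.inl hqk⟩
          · have h1 : ¬ q ≤ y.2 := fun h =>
              hqk (Topology.IsScott.isUpperSet_of_isOpen (D := univ) (hB k) (hy.2 q hq h) hk)
            obtain ⟨j, hj1, hj2⟩ := hsep q hq.2 y.2 hy.1.2 h1
            refine ⟨j + 1, Or.inr ?_⟩
            rw [mem_iUnion₂]
            exact ⟨j, ⟨by omega, hj2⟩, hj1⟩) (by
          apply Monotone.directed_le
          intro a b hab q hq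
          rcases hq with hq | hq
          · exact Or.inl hq
          · rw [mem_iUnion₂] at hq
            obtain ⟨j, ⟨hj1, hj2⟩, hj3⟩ := hq
            refine Or.inr ?_
            rw [mem_iUnion₂]
            exact ⟨j, ⟨by omega, hj2⟩, hj3⟩)
      refine ⟨N, fun _ _ q hq => ?_⟩
      rcases hN hq with h | h
      · exact Or.inl h
      · rw [mem_iUnion₂] at h
        obtain ⟨j, ⟨hj1, hj2⟩, hj3⟩ := h
        exact Or.inr ⟨j, hj1, hj3, hj2⟩
    · exact ⟨0, fun h1 h2 => absurd ⟨h1, h2⟩ hy⟩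
  choose z hz using hz
  obtain ⟨F, hF⟩ := approx (Rel C Q) (fun y k => ((y.1, y.2 ∈ B k, z y k) : ℕ × Prop × ℕ)) (by
    intro α hα
    obtain ⟨m, _, hm⟩ := hL.rank_big hCc α hα 0
    exact ⟨_, hm⟩)
  have fact : ∀ i K, ∃ y y' : ℕ × P, Rel C Q y' y ∧
      (y.1 = (F i 0).1 ∧ ∀ k, k < K → (y.2 ∈ B k ↔ (F i k).2.1) ∧ z y k = (F i k).2.2) ∧
      (y'.1 = (F (i + 1) 0).1 ∧ ∀ k, k < K → (y'.2 ∈ B k ↔ (F (i + 1) k).2.1) ∧ z y' k = (F (i + 1) k).2.2) := by
    intro i K
    obtain ⟨t, ht1, ht2⟩ := hF (max (i + 2) (K + 1))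
    have h1 : ∀ l, l ≤ max (i + 2) (K + 1) → ((t l).1 = (F l 0).1 ∧
        ∀ k, k < K → ((t l).2 ∈ B k ↔ (F l k).2.1) ∧ z (t l) k = (F l k).2.2) := by
      intro l hl
      constructor
      · rw [← ht2 l hl 0 (by omega)]
      · intro k hk
        rw [← ht2 l hl k (by omega)]
        exact ⟨Iff.rfl, rfl⟩
    exact ⟨t i, t (i + 1), ht1 i (by omega), h1 i (by omega), h1 (i + 1) (by omega)⟩
  -- the limits of the approximations
  have key : ∀ i, ∃ q, q ∈ Q ((F i 0).1) ∩ C ∧ ∀ k, q ∈ B k ↔ (F i k).2.1 := by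
    intro i
    have h1 : (Q ((F i 0).1) ∩ C ∩ ⋂ j : {j : ℕ // ¬ (F i j).2.1}, (B j)ᶜ).Nonempty := by
      apply ((hL.compQ _).inter_right hCc).inter_iInter_nonempty
      · intro j
        exact (hB j).isClosed_compl
      · intro T
        obtain ⟨N, hN⟩ : ∃ N : ℕ, ∀ j ∈ T, (j : ℕ) < N := by
          refine ⟨T.sup (fun j => (j : ℕ)) + 1, fun j hj => ?_⟩
          have := Finset.le_sup (f := fun j : {j : ℕ // ¬ (F i j).2.1} => (j : ℕ)) hj
          exact Nat.lt_succ_of_le this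
        obtain ⟨y, y', hR, ⟨hy1, hy2⟩, _⟩ := fact i N
        refine ⟨y.2, ?_, ?_⟩
        · rw [← hy1]
          exact hR.2.1.1
        · simp only [mem_iInter, mem_compl_iff]
          intro j hj hjB
          exact j.2 ((hy2 j (hN j hj)).1.1 hjB)
    obtain ⟨q, hq1, hq2⟩ := h1
    rw [mem_iInter] at hq2
    refine ⟨q, hq1, fun k => ?_⟩
    constructor
    · intro h
      by_contra hk
      exact hq2 ⟨k, hk⟩ h
    · intro hk
      obtain ⟨y, y', hR, ⟨hy1, hy2⟩, _⟩ := fact i (max k ((F i k).2.2) + 1)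
      have hyk := hy2 k (by omega)
      rcases hz y k hR.2.1 (hyk.1.2 hk) q (by rw [hy1]; exact hq1) with h | ⟨j, hj1, hj2, hj3⟩
      · exact h
      · exfalso
        rw [hyk.2] at hj1
        have hyj := hy2 j (by omega)
        exact hq2 ⟨j, fun h => hj3 (hyj.1.2 h)⟩ hj2
  choose q hq1 hq2 using key
  refine hL.no_chain hCc hP (fun i => (F i 0).1) q hq1 ?_ ?_
  · intro i
    obtain ⟨y, y', hR, ⟨hy1, _⟩, ⟨hy1', _⟩⟩ := fact i 0
    rw [← hy1, ← hy1']
    exact hR.2.2.1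
  · intro i
    by_contra hcon
    obtain ⟨k, hk1, hk2⟩ := hsep (q i) (hq1 i).2 (q (i + 1)) (hq1 (i + 1)).2 hcon
    obtain ⟨y, y', hR, ⟨_, hy2⟩, ⟨_, hy2'⟩⟩ := fact i (k + 1)
    apply hk2
    rw [hq2 (i + 1) k, ← (hy2' k (by omega)).1]
    apply Topology.IsScott.isUpperSet_of_isOpen (D := univ) (hB k) hR.2.2.2
    rw [(hy2 k (by omega)).1, ← hq2 i k]
    exact hk1

/-- `V` is way below `U` in the lattice of open sets: each family of open sets covering `U` has a finite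
subfamily covering `V` -/
def WayBelow (V U : Set P) : Prop :=
  ∀ W : Set (Set P), (∀ w ∈ W, IsOpen w) → U ⊆ ⋃₀ W → ∃ W' ⊆ W, W'.Finite ∧ V ⊆ ⋃₀ W'

variable (P) in
/-- the lattice of open sets is continuous -/
def CoreCompact : Prop :=
  ∀ U : Set P, IsOpen U → ∀ x ∈ U, ∃ V : Set P, IsOpen V ∧ x ∈ V ∧ WayBelow V U

omit [PartialOrder P] [Topology.IsScott P Set.univ] in
lemma WayBelow.seqBelow {V U : Set P} (h : WayBelow V U) : SeqBelow V U := by
  intro W hW hm hU
  obtain ⟨W', hW', hfin, hV⟩ := h (range W) (by rintro _ ⟨n, rfl⟩; exact hW n) (by rwa [sUnion_range])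
  have key : ∀ T : Set (Set P), T.Finite → T ⊆ range W → ∃ n, ⋃₀ T ⊆ W n := by
    intro T hT
    induction T, hT using Set.Finite.induction_on with
    | empty => intro _; exact ⟨0, by simp⟩
    | insert _ _ ih =>
      intro hsub
      obtain ⟨n, hn⟩ := ih ((subset_insert _ _).trans hsub)
      obtain ⟨m, hm'⟩ := hsub (mem_insert _ _)
      refine ⟨max n m, ?_⟩
      rw [sUnion_insert, ← hm']
      exact union_subset (hm (le_max_right _ _)) (hn.trans (hm (le_max_left _ _)))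
  obtain ⟨n, hn⟩ := key W' hfin hW'
  exact ⟨n, hV.trans hn⟩

omit [PartialOrder P] [Topology.IsScott P Set.univ] in
lemma coreCompact_of_locallyCompact [LocallyCompactSpace P] : CoreCompact P := by
  intro U hU x hx
  obtain ⟨K, hK, hKU, hKc⟩ := LocallyCompactSpace.local_compact_nhds x U (hU.mem_nhds hx)
  refine ⟨interior K, isOpen_interior, mem_interior_iff_mem_nhds.2 hK, ?_⟩
  intro W hW hUW
  obtain ⟨W', hW'1, hW'2, hW'3⟩ := hKc.elim_finite_subcover_image (b := W) (c := id) hW (by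
    have h1 : ⋃₀ W = ⋃ i ∈ W, id i := sUnion_eq_biUnion
    rw [← h1]
    exact hKU.trans hUW)
  refine ⟨W', hW'1, hW'2, ?_⟩
  have h2 : ⋃₀ W' = ⋃ i ∈ W', id i := sUnion_eq_biUnion
  rw [h2]
  exact interior_subset.trans hW'3

/-- a countable family dominating `V₀` has a finite subfamily dominating each `V` way below `V₀` -/
lemma finite_dom {C V V₀ F : Set P} (hCl : IsLowerSet C) (hV₀ : IsOpen V₀) (h : SeqBelow V V₀)
    (hF : F.Countable) (hdom : ∀ x ∈ V₀ ∩ C, ∃ f ∈ F, f ≤ x) :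
    ∃ F' ⊆ F, F'.Finite ∧ ∀ x ∈ V ∩ C, ∃ f ∈ F', f ≤ x := by
  rcases F.eq_empty_or_nonempty with h0 | h0
  · by_contra hcon
    push Not at hcon
    obtain ⟨x, hx, _⟩ := hcon ∅ (empty_subset _) finite_empty
    obtain ⟨d, hd1, hd2⟩ := below_inf hV₀ h (fun _ => x) (fun _ => hx.1)
    obtain ⟨k, _, hk⟩ := hd2 0
    obtain ⟨f, hf, _⟩ := hdom d ⟨hd1, hCl hk hx.2⟩
    rw [h0] at hf
    exact hf
  · obtain ⟨f, rfl⟩ := hF.exists_eq_range h0
    by_contra hcon
    push Not at hcon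
    have h1 : ∀ k : ℕ, ∃ x ∈ V ∩ C, ∀ i ≤ k, ¬ f i ≤ x := by
      intro k
      obtain ⟨x, hx, hx'⟩ := hcon (f '' Iic k) (image_subset_range _ _) ((finite_Iic k).image f)
      exact ⟨x, hx, fun i hi => hx' (f i) ⟨i, hi, rfl⟩⟩
    choose s hs1 hs2 using h1
    obtain ⟨d, hd1, hd2⟩ := below_inf hV₀ h s (fun k => (hs1 k).1)
    have hdC : d ∈ C := by
      obtain ⟨k, _, hk⟩ := hd2 0
      exact hCl hk (hs1 k).2
    obtain ⟨_, ⟨i, rfl⟩, hi⟩ := hdom d ⟨hd1, hdC⟩
    obtain ⟨k, hk1, hk2⟩ := hd2 i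
    exact hs2 k i hk1 (hi.trans hk2)

omit [TopologicalSpace P] [Topology.IsScott P Set.univ] in
/-- Rudin's lemma: a filtered family of finite subsets of a lower set `C` has a directed lower set `E ⊆ C` meeting all of
them -/
lemma rudin {C : Set P} (hC : IsLowerSet C) (𝓕 : Set (Set P)) (h1 : ∀ F ∈ 𝓕, F.Finite ∧ F ⊆ C ∧ F.Nonempty)
    (h2 : ∀ F ∈ 𝓕, ∀ G ∈ 𝓕, ∃ H ∈ 𝓕, ∀ x ∈ H, (∃ f ∈ F, f ≤ x) ∧ (∃ g ∈ G, g ≤ x)) :
    ∃ E ⊆ C, DirectedOn (· ≤ ·) E ∧ ∀ F ∈ 𝓕, (E ∩ F).Nonempty := by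
  obtain ⟨E, hE, hmin⟩ := zorn_superset {E : Set P | E ⊆ C ∧ IsLowerSet E ∧ ∀ F ∈ 𝓕, (E ∩ F).Nonempty} (by
    intro c hc hchain
    rcases c.eq_empty_or_nonempty with hc0 | hc0
    · refine ⟨C, ⟨Subset.rfl, hC, fun F hF => ?_⟩, by rw [hc0]; simp⟩
      obtain ⟨_, h4, x, hx⟩ := h1 F hF
      exact ⟨x, h4 hx, hx⟩
    · refine ⟨⋂₀ c, ⟨?_, ?_, ?_⟩, fun s hs => sInter_subset_of_mem hs⟩
      · obtain ⟨s, hs⟩ := hc0
        exact (sInter_subset_of_mem hs).trans (hc hs).1
      · exact isLowerSet_sInter (fun s hs => (hc hs).2.1)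
      · intro F hF
        by_contra hcon
        rw [not_nonempty_iff_eq_empty] at hcon
        -- each point of `F` is missed by some member of the chain
        have h3 : ∀ x ∈ F, ∃ s ∈ c, x ∉ s := by
          intro x hx
          by_contra h
          push Not at h
          have : x ∈ ⋂₀ c ∩ F := ⟨h, hx⟩
          rw [hcon] at this
          exact this
        have h4 : ∀ T : Set P, T.Finite → T ⊆ F → ∃ s ∈ c, ∀ x ∈ T, x ∉ s := by
          intro T hT
          induction T, hT using Set.Finite.induction_on with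
          | empty =>
            intro _
            obtain ⟨s, hs⟩ := hc0
            exact ⟨s, hs, by simp⟩
          | insert _ _ ih =>
            intro hsub
            obtain ⟨s, hs, hs'⟩ := ih ((subset_insert _ _).trans hsub)
            obtain ⟨s', hs'1, hs'2⟩ := h3 _ (hsub (mem_insert _ _))
            rcases hchain.total hs hs'1 with h | h
            · refine ⟨s, hs, ?_⟩
              intro x hx
              rcases hx with rfl | hx
              · exact fun h' => hs'2 (h h')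
              · exact hs' x hx
            · refine ⟨s', hs'1, ?_⟩
              intro x hx
              rcases hx with rfl | hx
              · exact hs'2
              · exact fun h' => hs' x hx (h h')
        obtain ⟨s, hs, hs'⟩ := h4 F (h1 F hF).1 Subset.rfl
        obtain ⟨x, hx1, hx2⟩ := (hc hs).2.2 F hF
        exact hs' x hx2 hx1)
  refine ⟨E, hE.1, ?_, hE.2.2⟩
  have h5 : ∀ a ∈ E, ∃ F ∈ 𝓕, ∀ x ∈ E ∩ F, a ≤ x := by
    intro a ha
    by_contra hcon
    push Not at hcon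
    have h6 : E ∩ (Ici a)ᶜ ∈ {E : Set P | E ⊆ C ∧ IsLowerSet E ∧ ∀ F ∈ 𝓕, (E ∩ F).Nonempty} := by
      refine ⟨inter_subset_left.trans hE.1, hE.2.1.inter (isUpperSet_Ici a).compl, ?_⟩
      intro F hF
      obtain ⟨x, hx1, hx2⟩ := hcon F hF
      exact ⟨x, ⟨hx1.1, hx2⟩, hx1.2⟩
    have h7 := hmin h6 inter_subset_left ha
    exact h7.2 (le_refl a)
  intro a ha b hb
  obtain ⟨F, hF, hF'⟩ := h5 a ha
  obtain ⟨G, hG, hG'⟩ := h5 b hb
  obtain ⟨H, hH, hH'⟩ := h2 F hF G hG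
  obtain ⟨x, hx1, hx2⟩ := hE.2.2 H hH
  obtain ⟨⟨f, hf, hfx⟩, ⟨g, hg, hgx⟩⟩ := hH' x hx2
  exact ⟨x, hx1, (hF' f ⟨hE.2.1 hfx hx1, hf⟩).trans hfx, (hG' g ⟨hE.2.1 hgx hx1, hg⟩).trans hgx⟩

/-- an irreducible closed set that is countably dominated has a largest element -/
theorem top_of_dominated (hcc : CoreCompact P)
    (hP : ∀ d : Set P, d.Nonempty → DirectedOn (· ≤ ·) d → ∃ x, IsLUB d x)
    {C : Set P} (hC : IsIrreducible C) (hCc : IsClosed C) (hdom : CountablyDominated C) :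
    ∃ a ∈ C, ∀ c ∈ C, c ≤ a := by
  have hCl : IsLowerSet C := Topology.IsScott.isLowerSet_of_isClosed hCc
  -- finite domination
  have claim : ∀ U : Set P, IsOpen U → (U ∩ C).Nonempty → ∃ F : Set P, F ⊆ U ∩ C ∧ F.Finite ∧
      ∃ V : Set P, IsOpen V ∧ (V ∩ C).Nonempty ∧ ∀ x ∈ V ∩ C, ∃ f ∈ F, f ≤ x := by
    intro U hU hUC
    obtain ⟨F, hF1, hF2, V₀, hV₀, ⟨x, hx1, hx2⟩, hF3⟩ := hdom U hU hUC
    obtain ⟨V, hV, hxV, hVV⟩ := hcc V₀ hV₀ x hx1
    obtain ⟨F', hF'1, hF'2, hF'3⟩ := finite_dom hCl hV₀ hVV.seqBelow hF2 hF3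
    exact ⟨F', hF'1.trans hF1, hF'2, V, hV, ⟨x, hxV, hx2⟩, hF'3⟩
  let 𝓕 : Set (Set P) := {F | F.Finite ∧ F ⊆ C ∧ ∃ V : Set P, IsOpen V ∧ (V ∩ C).Nonempty ∧
    ∀ x ∈ V ∩ C, ∃ f ∈ F, f ≤ x}
  have hmem : ∀ U : Set P, IsOpen U → (U ∩ C).Nonempty → ∃ F ∈ 𝓕, F ⊆ U := by
    intro U hU hUC
    obtain ⟨F, hF1, hF2, hF3⟩ := claim U hU hUC
    exact ⟨F, ⟨hF2, hF1.trans inter_subset_right, hF3⟩, hF1.trans inter_subset_left⟩
  obtain ⟨E, hEC, hEd, hE⟩ := rudin hCl 𝓕 (by
    rintro F ⟨hF1, hF2, V, _, ⟨x, hx⟩, hF3⟩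
    obtain ⟨f, hf, _⟩ := hF3 x hx
    exact ⟨hF1, hF2, f, hf⟩) (by
    rintro F ⟨hF1, hF2, V, hV, ⟨x, hx1, hx2⟩, hF3⟩ G ⟨hG1, hG2, W, hW, ⟨y, hy1, hy2⟩, hG3⟩
    obtain ⟨w, hw1, hw2⟩ := hC.2 V W hV hW ⟨x, hx2, hx1⟩ ⟨y, hy2, hy1⟩
    obtain ⟨H, hH, hH'⟩ := hmem (V ∩ W) (hV.inter hW) ⟨w, hw2, hw1⟩
    exact ⟨H, hH, fun x hx => ⟨hF3 x ⟨(hH' hx).1, hH.2.1 hx⟩, hG3 x ⟨(hH' hx).2, hH.2.1 hx⟩⟩⟩)
  have hEne : E.Nonempty := by
    obtain ⟨F, hF, _⟩ := hmem univ isOpen_univ (by rw [univ_inter]; exact hC.1)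
    exact (hE F hF).mono inter_subset_left
  obtain ⟨a, ha⟩ := hP E hEne hEd
  refine ⟨a, Topology.IsScott.dirSupClosed_of_isClosed hCc hEC hEne hEd ha, ?_⟩
  intro c hc
  by_contra hca
  obtain ⟨F, hF, hF'⟩ := hmem (Iic a)ᶜ isClosed_Iic.isOpen_compl ⟨c, hca, hc⟩
  obtain ⟨x, hx1, hx2⟩ := hE F hF
  exact hF' hx2 (ha.1 hx1)

/-- sobriety from largest elements -/
lemma sober_of_top (h : ∀ C : Set P, IsIrreducible C → IsClosed C → ∃ a ∈ C, ∀ c ∈ C, c ≤ a) :
    QuasiSober P ∧ T0Space P := by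
  refine ⟨⟨?_⟩, inferInstance⟩
  intro C hC hCc
  obtain ⟨a, ha, ha'⟩ := h C hC hCc
  refine ⟨a, ?_⟩
  rw [IsGenericPoint, Topology.IsScott.closure_singleton]
  apply Subset.antisymm
  · intro c hc
    exact Topology.IsScott.isLowerSet_of_isClosed hCc hc ha
  · intro c hc
    exact ha' c hc

end Main

section Result
variable {P : Type u} [PartialOrder P] [TopologicalSpace P] [Topology.IsScott P Set.univ]

/-- A dcpo with locally compact Scott topology, all of whose irreducible closed sets are countably separated or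
countably dominated, has a sober Scott topology. -/
theorem result :
    ∀ (P : Type u) [PartialOrder P] [TopologicalSpace P] [Topology.IsScott P Set.univ],
      (∀ d : Set P, d.Nonempty → DirectedOn (· ≤ ·) d → ∃ x, IsLUB d x) →
      LocallyCompactSpace P →
      (∀ C : Set P, IsIrreducible C → IsClosed C → CountablySeparated C ∨ CountablyDominated C) →
      QuasiSober P ∧ T0Space P := by
  intro P _ _ _ hP hlc h
  apply sober_of_top
  intro C hC hCc
  rcases h C hC hCc with h | h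
  · exact top_of_separated hP hC hCc h
  · exact top_of_dominated coreCompact_of_locallyCompact hP hC hCc h

/-! ### Special cases -/

/-- the Scott topology has a countable base -/
theorem sober_of_secondCountable (hP : ∀ d : Set P, d.Nonempty → DirectedOn (· ≤ ·) d → ∃ x, IsLUB d x)
    [LocallyCompactSpace P] [SecondCountableTopology P] : QuasiSober P ∧ T0Space P := by
  refine result P hP inferInstance (fun C hC _ => Or.inl ?_)
  have hb := TopologicalSpace.isBasis_countableBasis P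
  obtain ⟨x₀, _⟩ := hC.1
  obtain ⟨V₀, hV₀, _, _⟩ := hb.exists_subset_of_mem_open (mem_univ x₀) isOpen_univ
  obtain ⟨B, hB⟩ := (TopologicalSpace.countable_countableBasis P).exists_eq_range ⟨V₀, hV₀⟩
  refine ⟨B, fun n => hb.isOpen (by rw [hB]; exact ⟨n, rfl⟩), fun x _ y _ hxy => ?_⟩
  obtain ⟨V, hV, hxV, hVy⟩ := hb.exists_subset_of_mem_open (show x ∈ (Iic y)ᶜ from hxy) isClosed_Iic.isOpen_compl
  rw [hB] at hV
  obtain ⟨n, rfl⟩ := hV
  exact ⟨n, hxV, fun h => hVy h (le_refl y)⟩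

/-- countable dcpos -/
theorem sober_of_countable (hP : ∀ d : Set P, d.Nonempty → DirectedOn (· ≤ ·) d → ∃ x, IsLUB d x)
    [LocallyCompactSpace P] [Countable P] : QuasiSober P ∧ T0Space P := by
  refine result P hP inferInstance (fun C hC _ => Or.inl ?_)
  obtain ⟨x₀, _⟩ := hC.1
  have : Nonempty P := ⟨x₀⟩
  obtain ⟨e, he⟩ := exists_surjective_nat P
  refine ⟨fun n => (Iic (e n))ᶜ, fun n => isClosed_Iic.isOpen_compl, fun x _ y _ hxy => ?_⟩
  obtain ⟨n, rfl⟩ := he y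
  exact ⟨n, hxy, fun h => h (le_refl _)⟩

/-- dcpos all of whose antichains are countable -/
theorem sober_of_antichains (hP : ∀ d : Set P, d.Nonempty → DirectedOn (· ≤ ·) d → ∃ x, IsLUB d x)
    [LocallyCompactSpace P] (hA : ∀ A : Set P, IsAntichain (· ≤ ·) A → A.Countable) : QuasiSober P ∧ T0Space P := by
  refine result P hP inferInstance (fun C _ hCc => Or.inr ?_)
  rintro U hU ⟨x, hx, hxC⟩
  obtain ⟨K, hK, hKU, hKc⟩ := LocallyCompactSpace.local_compact_nhds x U (hU.mem_nhds hx)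
  refine ⟨{m | m ∈ K ∩ C ∧ ∀ q ∈ K ∩ C, q ≤ m → m ≤ q}, fun m hm => ⟨hKU hm.1.1, hm.1.2⟩, ?_,
    interior K, isOpen_interior, ⟨x, mem_interior_iff_mem_nhds.2 hK, hxC⟩, ?_⟩
  · apply hA
    intro a ha b hb hab h
    exact hab (le_antisymm h (hb.2 a ha.1 h))
  · intro y hy
    obtain ⟨m, hm1, hm2, hm3⟩ := exists_min (hKc.inter_right hCc) (d := y) ⟨interior_subset hy.1, hy.2⟩
    exact ⟨m, ⟨hm1, hm3⟩, hm2⟩

end Result

end Pool.Agent.Results.MP_dd23d5_gt.CountableCase
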